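import Mathlib
import Pool.Agent.H57R3.FC.G

/-!
The number of value triples of solutions of the generalised Fermat equation, over all hyperbolic signatures
simultaneously and without any coprimality condition, is `O(X ^ (1 / 3 + δ))`.
-/

set_option autoImplicit false

namespace Pool.Agent.Results.MP_2738db_nt.CountSolutions

/-- the value triples up to `X` of the solutions, coprime or not, of `a ^ m + b ^ n = c ^ k` in positive
integers with `1 / m + 1 / n + 1 / k < 1` -/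
def Vals (X : ℕ) : Set (ℕ × ℕ × ℕ) :=
  {t | ∃ a b c m n k : ℕ, 0 < a ∧ 0 < b ∧ 0 < c ∧ 0 < m ∧ 0 < n ∧ 0 < k ∧
    1 / (m : ℝ) + 1 / (n : ℝ) + 1 / (k : ℝ) < 1 ∧ a ^ m + b ^ n = c ^ k ∧
    t = (a ^ m, b ^ n, c ^ k) ∧ c ^ k ≤ X}

theorem result (δ : ℝ) (hδ : 0 < δ) :
    ∃ C : ℝ, ∀ X : ℕ, 1 ≤ X → (Vals X).Finite ∧ ((Vals X).ncard : ℝ) ≤ C * (X : ℝ) ^ (1 / 3 + δ) := by
  obtain ⟨C, _, h⟩ := Pool.Agent.H57R3.FC.final3 hδ
  refine ⟨C, fun X hX => ?_⟩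
  have hb : ∀ F : Finset (ℕ × ℕ × ℕ), (↑F : Set (ℕ × ℕ × ℕ)) ⊆ Vals X → (F.card : ℝ) ≤ C * (X : ℝ) ^ (1 / 3 + δ) :=
    fun F hF => h X hX F fun t ht => hF ht
  have hf : (Vals X).Finite := by
    by_contra hinf
    obtain ⟨t, ht1, ht2⟩ := Set.Infinite.exists_subset_card_eq (s := Vals X) hinf
      (⌊C * (X : ℝ) ^ (1 / 3 + δ)⌋₊ + 1)
    have h1 := hb t ht1
    rw [ht2] at h1
    push_cast at h1
    have h2 := Nat.lt_floor_add_one (C * (X : ℝ) ^ (1 / 3 + δ))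
    linarith
  refine ⟨hf, ?_⟩
  rw [Set.ncard_eq_toFinset_card _ hf]
  exact hb _ (by simp)

end Pool.Agent.Results.MP_2738db_nt.CountSolutions
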