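import Pool.Agent.H50R3.MetricFC

/-!
# Fermat-Catalan for generic coefficients, with error term

`Near s ε C lam` is the set of value triples `(a^x, b^y, c^z)` of perfect powers (all exponents
`x, y, z ≥ 1` allowed) with
`|a^x + b^y - lam * c^z| ≤ C * (a^x + b^y) ^ (1 - (1/x + 1/y + 1/z + ε) / s)`.

`FC θ C lam` is the set of value triples `(a^x, b^y, c^z)` with `1/x + 1/y + 1/z < 1` and
`|a^x + b^y - lam * c^z| ≤ C * (a^x + b^y) ^ θ`.

The coefficients `lam > 0` for which such a set is infinite (for some `C`) form a set of small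
Hausdorff dimension; for `θ = 0` the dimension is at most `41/42`.
-/

namespace Pool.Agent.Results.MP_2738db_nt.GenericCoefficient

open Pool.Agent.H50R3.MetricFC

theorem result :
    (∀ s ε : ℝ, 0 < s → 0 < ε →
      dimH {lam : ℝ | 0 < lam ∧ ∃ C : ℝ, (Near s ε C lam).Infinite} ≤ ENNReal.ofReal s) ∧
    (∀ θ : ℝ, θ < 1 →
      dimH {lam : ℝ | 0 < lam ∧ ∃ C : ℝ, (FC θ C lam).Infinite} ≤
        ENNReal.ofReal (41 / (42 * (1 - θ)))) :=
  ⟨dimH_near, dimH_FC⟩

end Pool.Agent.Results.MP_2738db_nt.GenericCoefficient
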